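import Mathlib

/-!
# Unit discs in a square: the quadratic bound is never sharp

For a positive integer `n` let `s_n` be the minimal side of a square containing `n`
nonoverlapping unit discs.  We prove, for every `n ≥ 1`,

`√12 n ≥ (s_n - 2)^2 + (2/3) (s_n - 2) + √3 - 1/3 > s_n^2 - (3+√3) s_n + 2 + 2√3`,

so equality in the bound of the problem holds for no `n`.
-/

namespace Pool.Agent.Results.MP_77b5a8_co.NoEquality

open Metric Set

/-- The Euclidean plane. -/
abbrev Plane : Type := EuclideanSpace ℝ (Fin 2)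

/-- The square `[0,s]^2`. -/
def box (s : ℝ) : Set Plane := {x | ∀ i, 0 ≤ x i ∧ x i ≤ s}

/-- Some square of side `s` (an isometric copy of `[0,s]^2`) contains `n` closed discs of radius
`1` whose interiors are pairwise disjoint. -/
def Fits (n : ℕ) (s : ℝ) : Prop :=
  0 ≤ s ∧ ∃ (e : Plane ≃ᵢ Plane) (c : Fin n → Plane),
    (∀ i, closedBall (c i) 1 ⊆ e '' box s) ∧
    Pairwise (fun i j => Disjoint (interior (closedBall (c i) 1)) (interior (closedBall (c j) 1)))

/-- `s_n`: the minimal side of a square containing `n` nonoverlapping unit discs. -/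
noncomputable def sideMin (n : ℕ) : ℝ := sInf {s | Fits n s}

/-- The quadratic function of the problem. -/
noncomputable def F (s : ℝ) : ℝ := s ^ 2 - (3 + √3) * s + 2 + 2 * √3

/-- The index pairs of equal parity in `[0,R) × [0,m]`. -/
def par (R m : ℕ) : Finset (ℕ × ℕ) :=
  (Finset.range R ×ˢ Finset.range (m + 1)).filter (fun p => p.2 % 2 = p.1 % 2)

lemma par_card (R m : ℕ) :
    (par R m).card
      = ∑ i ∈ Finset.range R, ((Finset.range (m + 1)).filter (fun t => t % 2 = i % 2)).card := by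
  classical
  unfold par
  rw [Finset.card_filter, Finset.sum_product]
  refine Finset.sum_congr rfl fun i _ => ?_
  rw [Finset.card_filter]

lemma row_pair (m i : ℕ) :
    ((Finset.range (m + 1)).filter (fun t => t % 2 = i % 2)).card
      + ((Finset.range (m + 1)).filter (fun t => t % 2 = (i + 1) % 2)).card = m + 1 := by
  classical
  have h := Finset.card_filter_add_card_filter_not (s := Finset.range (m + 1))
    (fun t => t % 2 = i % 2)
  rw [Finset.card_range] at h
  have h2 : (Finset.range (m + 1)).filter (fun t => ¬ (t % 2 = i % 2))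
      = (Finset.range (m + 1)).filter (fun t => t % 2 = (i + 1) % 2) := by
    apply Finset.filter_congr
    intro t _
    omega
  rw [h2] at h
  exact h

lemma row_even (m : ℕ) :
    m + 1 ≤ 2 * ((Finset.range (m + 1)).filter (fun t => t % 2 = 0 % 2)).card := by
  classical
  have h := row_pair m 0
  have h2 : ((Finset.range (m + 1)).filter (fun t => t % 2 = (0 + 1) % 2)).card
      ≤ ((Finset.range (m + 1)).filter (fun t => t % 2 = 0 % 2)).card := by
    apply Finset.card_le_card_of_injOn (fun t => t - 1)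
    · intro t ht
      simp only [Finset.coe_filter, Finset.mem_range, Set.mem_ofPred_eq] at ht ⊢
      omega
    · intro a ha b hb hab
      simp only [Finset.coe_filter, Finset.mem_range, Set.mem_ofPred_eq] at ha hb hab
      omega
  omega

lemma par_card_even (j m : ℕ) :
    ∑ i ∈ Finset.range (2 * j),
      ((Finset.range (m + 1)).filter (fun t => t % 2 = i % 2)).card = j * (m + 1) := by
  induction j with
  | zero => simp
  | succ j ih =>
    have : 2 * (j + 1) = 2 * j + 1 + 1 := by ring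
    rw [this, Finset.sum_range_succ, Finset.sum_range_succ, ih, add_assoc, row_pair m (2 * j)]
    ring

lemma par_card_ge (R m : ℕ) : R * (m + 1) ≤ 2 * (par R m).card := by
  rw [par_card]
  rcases Nat.even_or_odd' R with ⟨j, hj | hj⟩
  · rw [hj, par_card_even]
    nlinarith
  · rw [hj, Finset.sum_range_succ, par_card_even]
    have h := row_even m
    have h2 : (fun t : ℕ => t % 2 = (2 * j) % 2) = (fun t : ℕ => t % 2 = 0 % 2) := by
      funext t
      have : (2 * j) % 2 = 0 % 2 := by omega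
      rw [this]
    have h3 : ((Finset.range (m + 1)).filter (fun t => t % 2 = (2 * j) % 2)).card
        = ((Finset.range (m + 1)).filter (fun t => t % 2 = 0 % 2)).card := by
      congr 1
      apply Finset.filter_congr
      intro t _
      omega
    rw [h3]
    nlinarith

/-- The stretched triangular rows: `n` unit discs fit into a square of side `D + 2`. -/
lemma fits_rows (D u h : ℝ) (m R n : ℕ) (hD : 0 ≤ D) (hu : 1 ≤ u) (hum : u * m ≤ D)
    (hh : 1 ≤ h) (hR : ∀ i : ℕ, i < R → h * i ≤ D) (huh : 4 ≤ u ^ 2 + h ^ 2)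
    (hn : 2 * n ≤ R * (m + 1) + 1) : Fits n (D + 2) := by
  classical
  have hcard : n ≤ (par R m).card := by
    have := par_card_ge R m
    omega
  have hne : Nonempty (Fin n ↪ (par R m : Finset (ℕ × ℕ))) := by
    apply Function.Embedding.nonempty_of_card_le
    simpa using hcard
  obtain ⟨φ⟩ := hne
  set c : Fin n → Plane := fun k =>
    !₂[1 + u * ((φ k).1.2 : ℝ), 1 + h * ((φ k).1.1 : ℝ)] with hc
  have hc0 : ∀ k, c k 0 = 1 + u * ((φ k).1.2 : ℝ) := fun k => by simp [hc]
  have hc1 : ∀ k, c k 1 = 1 + h * ((φ k).1.1 : ℝ) := fun k => by simp [hc]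
  have hmem : ∀ k, (φ k).1.1 < R ∧ (φ k).1.2 < m + 1 ∧ (φ k).1.2 % 2 = (φ k).1.1 % 2 := by
    intro k
    have := (φ k).2
    simp only [par, Finset.mem_filter, Finset.mem_product, Finset.mem_range] at this
    tauto
  refine ⟨by linarith, IsometryEquiv.refl _, c, ?_, ?_⟩
  · intro k x hx
    refine ⟨x, ?_, rfl⟩
    have hx' : ‖x - c k‖ ≤ 1 := by simpa [dist_eq_norm] using hx
    have hco : ∀ i, |x i - c k i| ≤ 1 := by
      intro i
      have := PiLp.norm_apply_le (x - c k) i
      have h2 : ‖(x - c k) i‖ = |x i - c k i| := by simp [Real.norm_eq_abs]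
      rw [h2] at this
      linarith
    obtain ⟨h1, h2, -⟩ := hmem k
    have h2' : ((φ k).1.2 : ℝ) ≤ m := by exact_mod_cast Nat.lt_succ_iff.mp h2
    have hb0 : u * ((φ k).1.2 : ℝ) ≤ D :=
      le_trans (mul_le_mul_of_nonneg_left h2' (by linarith)) hum
    have hb1 : h * ((φ k).1.1 : ℝ) ≤ D := hR _ h1
    have hp0 : 0 ≤ u * ((φ k).1.2 : ℝ) := by positivity
    have hp1 : 0 ≤ h * ((φ k).1.1 : ℝ) := by positivity
    intro i
    fin_cases i
    · have := hco 0
      rw [hc0, abs_le] at this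
      constructor
      · show 0 ≤ x 0
        linarith
      · show x 0 ≤ D + 2
        linarith
    · have := hco 1
      rw [hc1, abs_le] at this
      constructor
      · show 0 ≤ x 1
        linarith
      · show x 1 ≤ D + 2
        linarith
  · intro k l hkl
    have hdist : 2 ≤ dist (c k) (c l) := by
      rw [EuclideanSpace.dist_eq]
      apply Real.le_sqrt_of_sq_le
      rw [Fin.sum_univ_two, hc0, hc0, hc1, hc1, Real.dist_eq, Real.dist_eq, sq_abs, sq_abs]
      obtain ⟨-, -, pk⟩ := hmem k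
      obtain ⟨-, -, pl⟩ := hmem l
      have hφ : (φ k).1 ≠ (φ l).1 := by
        intro h
        exact hkl (φ.injective (Subtype.ext h))
      set a : ℤ := ((φ k).1.2 : ℤ) - (φ l).1.2 with ha
      set b : ℤ := ((φ k).1.1 : ℤ) - (φ l).1.1 with hb
      have hab : a ≠ 0 ∨ b ≠ 0 := by
        by_contra hcon
        push Not at hcon
        apply hφ
        apply Prod.ext
        · have := hcon.2
          omega
        · have := hcon.1
          omega
      have hpar : a % 2 = b % 2 := by omega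
      have har : ((a : ℤ) : ℝ) = ((φ k).1.2 : ℝ) - (φ l).1.2 := by
        rw [ha]; push_cast; ring
      have hbr : ((b : ℤ) : ℝ) = ((φ k).1.1 : ℝ) - (φ l).1.1 := by
        rw [hb]; push_cast; ring
      have e1 : (1 + u * ((φ k).1.2 : ℝ) - (1 + u * ((φ l).1.2 : ℝ))) ^ 2
          + (1 + h * ((φ k).1.1 : ℝ) - (1 + h * ((φ l).1.1 : ℝ))) ^ 2
          = u ^ 2 * (a : ℝ) ^ 2 + h ^ 2 * (b : ℝ) ^ 2 := by
        rw [har, hbr]; ring
      rw [e1]
      have hu2 : 1 ≤ u ^ 2 := by nlinarith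
      have hh2 : 1 ≤ h ^ 2 := by nlinarith
      rcases eq_or_ne b 0 with hb0 | hb0
      · have ha2 : a ≠ 0 := by
          rcases hab with h | h
          · exact h
          · exact absurd hb0 h
        have ha4 : 4 ≤ a ^ 2 := by
          have : 2 ≤ |a| := by
            rcases abs_cases a with ⟨h, _⟩ | ⟨h, _⟩ <;> omega
          calc (4 : ℤ) = 2 ^ 2 := by norm_num
            _ ≤ |a| ^ 2 := by gcongr
            _ = a ^ 2 := sq_abs a
        have ha4' : (4 : ℝ) ≤ (a : ℝ) ^ 2 := by exact_mod_cast ha4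
        rw [hb0]
        push_cast
        nlinarith
      · rcases eq_or_ne (|b|) 1 with hb1 | hb1
        · have hbb : b ^ 2 = 1 := by rw [← sq_abs, hb1]; norm_num
          have ha1 : 1 ≤ a ^ 2 := by
            have : a ≠ 0 := by
              rcases abs_cases b with ⟨h, _⟩ | ⟨h, _⟩ <;> omega
            have := Int.one_le_abs this
            calc (1 : ℤ) = 1 ^ 2 := by norm_num
              _ ≤ |a| ^ 2 := by gcongr
              _ = a ^ 2 := sq_abs a
          have hbb' : (b : ℝ) ^ 2 = 1 := by exact_mod_cast hbb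
          have ha1' : (1 : ℝ) ≤ (a : ℝ) ^ 2 := by exact_mod_cast ha1
          rw [hbb']
          nlinarith
        · have hb4 : 4 ≤ b ^ 2 := by
            have : 2 ≤ |b| := by
              rcases abs_cases b with ⟨h, _⟩ | ⟨h, _⟩ <;> omega
            calc (4 : ℤ) = 2 ^ 2 := by norm_num
              _ ≤ |b| ^ 2 := by gcongr
              _ = b ^ 2 := sq_abs b
          have hb4' : (4 : ℝ) ≤ (b : ℝ) ^ 2 := by exact_mod_cast hb4
          nlinarith [sq_nonneg (u * (a : ℝ)), mul_pow u (a : ℝ) 2]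
    rw [interior_closedBall _ one_ne_zero, interior_closedBall _ one_ne_zero]
    apply ball_disjoint_ball
    linarith

/-- The number of rows gained by stretching. -/
lemma stretch (D : ℝ) (m : ℕ) (hm : 1 ≤ m) (hmD : (m : ℝ) ≤ D) (hu : (D / m) ^ 2 ≤ 3) :
    (D + (D - m) / 3) / √3 ≤ D / √(4 - (D / m) ^ 2) := by
  have hm0 : (0 : ℝ) < m := by exact_mod_cast hm
  have hD0 : 0 < D := lt_of_lt_of_le hm0 hmD
  set u : ℝ := D / m with hudef
  have hDu : D = u * m := by rw [hudef]; field_simp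
  have hu1 : 1 ≤ u := by rw [hudef, le_div_iff₀ hm0]; linarith
  have hpos : 0 < 4 - u ^ 2 := by linarith
  have hs3 : 0 < √3 := by positivity
  have hsh : 0 < √(4 - u ^ 2) := Real.sqrt_pos.mpr hpos
  rw [div_le_div_iff₀ hs3 hsh]
  have e1 : D + (D - m) / 3 = m * ((4 * u - 1) / 3) := by rw [hDu]; ring
  have e2 : D * √3 = m * (u * √3) := by rw [hDu]; ring
  rw [e1, e2, mul_assoc]
  apply mul_le_mul_of_nonneg_left _ hm0.le
  have hx : 0 ≤ u * √3 := by positivity
  apply le_of_sq_le_sq _ hx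
  rw [mul_pow, mul_pow, Real.sq_sqrt hpos.le, Real.sq_sqrt (by norm_num : (0:ℝ) ≤ 3)]
  have key : 0 ≤ (u - 1) ^ 2 * (4 * u ^ 2 + 6 * u - 1) := by
    apply mul_nonneg (sq_nonneg _)
    nlinarith
  nlinarith [key]

/-- Rows with a stretch `u = D / m`. -/
lemma fits_stretch (D : ℝ) (m R n : ℕ) (hm : 1 ≤ m) (hmD : (m : ℝ) ≤ D) (hu : (D / m) ^ 2 ≤ 3)
    (hR : (R : ℝ) ≤ (D + (D - m) / 3) / √3 + 1) (hn : 2 * n ≤ R * (m + 1) + 1) :
    Fits n (D + 2) := by
  have hm0 : (0 : ℝ) < m := by exact_mod_cast hm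
  have hD0 : 0 < D := lt_of_lt_of_le hm0 hmD
  have hst := stretch D m hm hmD hu
  have h1 : (1 : ℝ) ≤ 4 - (D / m) ^ 2 := by linarith
  have hh : 1 ≤ √(4 - (D / m) ^ 2) := by
    rw [show (1 : ℝ) = √1 by simp]
    exact Real.sqrt_le_sqrt h1
  refine fits_rows D (D / m) (√(4 - (D / m) ^ 2)) m R n hD0.le ?_ ?_ hh ?_ ?_ hn
  · rw [le_div_iff₀ hm0]; linarith
  · rw [div_mul_cancel₀ _ hm0.ne']
  · intro i hi
    have hi' : (i : ℝ) + 1 ≤ R := by exact_mod_cast hi
    have h2 : (i : ℝ) ≤ D / √(4 - (D / m) ^ 2) := by linarith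
    rw [le_div_iff₀ (by linarith)] at h2
    linarith
  · rw [Real.sq_sqrt (by linarith)]
    linarith

lemma ratio_sq (D m : ℝ) (hD : 0 ≤ D) (hDm : D < m + 1) (hm : 4 ≤ m) :
    (D / (m - 1)) ^ 2 ≤ 3 := by
  have hm3 : (0 : ℝ) < m - 1 := by linarith
  rw [div_pow, div_le_iff₀ (pow_pos hm3 2)]
  have hA1 : D ≤ (m - 1) * (5 / 3) := by linarith
  have hA2 : D ^ 2 ≤ ((m - 1) * (5 / 3)) ^ 2 := by gcongr
  nlinarith [sq_nonneg (m - 1)]

lemma count_ineq (D r w : ℝ) (hD : 0 ≤ D) (hr0 : 0 ≤ r) (hr1 : r < 1) (hw : 1.732 < w)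
    (hw2 : w < 1.7321) :
    D ^ 2 + 2 / 3 * D - (1 / 3 + w) ≤ (D + r / 3 + w) * (D - r - 1 + 1) := by
  have h1 : (D + r / 3 + w) * (D - r - 1 + 1)
      = D ^ 2 + D * (w - 2 * r / 3) - r ^ 2 / 3 - r * w := by ring
  rw [h1]
  have h2 : D * (2 / 3) ≤ D * (w - 2 * r / 3) := by
    apply mul_le_mul_of_nonneg_left _ hD
    linarith
  have h3 : r ^ 2 ≤ 1 := by nlinarith
  have h4 : r * w ≤ w := by nlinarith
  linarith

/-- Main construction. -/
lemma fits_main (D : ℝ) (hD : 0 ≤ D) (n : ℕ) (hn : 1 ≤ n)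
    (hX : √12 * ((n : ℝ) - 1) ≤ D ^ 2 + 2 / 3 * D - (1 / 3 + √3)) : Fits n (D + 2) := by
  have hs3 : 0 < √3 := by positivity
  have hs3sq : √3 ^ 2 = 3 := Real.sq_sqrt (by norm_num)
  have hs3lo : 1.732 < √3 := by
    apply Real.lt_sqrt_of_sq_lt; norm_num
  have hs3hi : √3 < 1.7321 := by
    rw [Real.sqrt_lt' (by norm_num)]; norm_num
  have h12 : √12 = 2 * √3 := by
    rw [show (12 : ℝ) = 2 ^ 2 * 3 by norm_num, Real.sqrt_mul (by norm_num),
      Real.sqrt_sq (by norm_num)]
  rw [h12] at hX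
  have hn1 : (1 : ℝ) ≤ n := by exact_mod_cast hn
  have hX0 : 0 ≤ D ^ 2 + 2 / 3 * D - (1 / 3 + √3) := by
    refine le_trans ?_ hX
    have : 0 ≤ (n : ℝ) - 1 := by linarith
    positivity
  have hD1 : 1 < D := by nlinarith
  set m : ℕ := ⌊D⌋₊ with hm
  have hmD : (m : ℝ) ≤ D := Nat.floor_le hD
  have hmD2 : D < m + 1 := Nat.lt_floor_add_one D
  have hm1 : 1 ≤ m := by
    rw [hm]; apply Nat.le_floor; simpa using hD1.le
  -- the count criterion
  have crit : ∀ R q : ℕ, D ^ 2 + 2 / 3 * D - (1 / 3 + √3) < √3 * R * (q + 1) →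
      2 * n ≤ R * (q + 1) + 1 := by
    intro R q h
    have h2 : √3 * (2 * ((n : ℝ) - 1)) < √3 * (R * (q + 1)) := by linarith
    have h3 : 2 * ((n : ℝ) - 1) < R * (q + 1) := lt_of_mul_lt_mul_left h2 hs3.le
    have h4 : 2 * (n : ℝ) < R * (q + 1) + 2 := by linarith
    have h5 : 2 * n < R * (q + 1) + 2 := by exact_mod_cast h4
    omega
  rcases lt_or_ge D 2 with hD2 | hD2
  · -- one disc suffices
    have hn2 : n = 1 := by
      by_contra hne
      have : 2 ≤ n := by omega
      have h2 : (2 : ℝ) ≤ n := by exact_mod_cast this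
      nlinarith
    subst hn2
    refine fits_rows D 1 (√3) 0 1 1 hD le_rfl (by simpa using hD) (by linarith) ?_ ?_ (by norm_num)
    · intro i hi
      have : i = 0 := by omega
      subst this
      simpa using hD
    · rw [hs3sq]; norm_num
  have hm2 : 2 ≤ m := by
    rw [hm]; apply Nat.le_floor; simpa using hD2
  have hm2' : (2 : ℝ) ≤ m := by exact_mod_cast hm2
  have hm0 : (0 : ℝ) < m := by linarith
  have hu0 : (D / m) ^ 2 ≤ 3 := by
    rw [div_pow, div_le_iff₀ (by positivity)]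
    nlinarith
  set r : ℝ := D - m with hr
  have hr0 : 0 ≤ r := by linarith
  have hr1 : r < 1 := by linarith
  set X : ℝ := (D + r / 3) / √3 with hXdef
  have hX0' : 0 ≤ X := by positivity
  have hXs : √3 * X = D + r / 3 := by rw [hXdef]; field_simp
  set q : ℕ := ⌊X⌋₊ with hq
  have hqX : (q : ℝ) ≤ X := Nat.floor_le hX0'
  have hqX2 : X < q + 1 := Nat.lt_floor_add_one X
  rcases lt_or_ge D 4 with hD4 | hD4
  · refine fits_stretch D m (q + 1) n hm1 hmD hu0 ?_ (crit _ _ ?_)
    · push_cast; linarith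
    · have h1 : √3 * X * (m + 1) < √3 * (q + 1) * (m + 1) := by gcongr
      rw [hXs] at h1
      push_cast
      refine lt_of_le_of_lt ?_ h1
      have : (m : ℝ) = D - r := by rw [hr]; ring
      rw [this]
      nlinarith
  have hm4 : 4 ≤ m := by
    rw [hm]; apply Nat.le_floor; simpa using hD4
  have hm4' : (4 : ℝ) ≤ m := by exact_mod_cast hm4
  rcases lt_or_ge (√3 * X + 1 / 3) (√3 * (q + 1)) with hB | hA
  · -- Case B
    refine fits_stretch D m (q + 1) n hm1 hmD hu0 ?_ (crit _ _ ?_)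
    · push_cast; linarith
    · have h1 : (√3 * X + 1 / 3) * (m + 1) < √3 * (q + 1) * (m + 1) := by gcongr
      rw [hXs] at h1
      push_cast
      refine lt_of_le_of_lt ?_ h1
      have : (m : ℝ) = D - r := by rw [hr]; ring
      rw [this]
      nlinarith
  · -- Case A
    have hm1' : ((m - 1 : ℕ) : ℝ) = m - 1 := by
      rw [Nat.cast_sub hm1]; simp
    have hu1 : (D / ((m - 1 : ℕ) : ℝ)) ^ 2 ≤ 3 := by
      rw [hm1']
      exact ratio_sq D m hD hmD2 hm4'
    refine fits_stretch D (m - 1) (q + 2) n (by omega) (by rw [hm1']; linarith) hu1 ?_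
      (crit _ _ ?_)
    · rw [hm1']
      push_cast
      have h2 : (D + (D - (m - 1)) / 3) / √3 = (√3 * X + 1 / 3) / √3 := by
        rw [hXs, hr]; ring
      rw [h2]
      have h3 : (q : ℝ) + 1 ≤ (√3 * X + 1 / 3) / √3 := by
        rw [le_div_iff₀ hs3]; linarith
      linarith
    · rw [hm1']
      push_cast
      have h1 : √3 * (X + 1) * (m - 1 + 1) < √3 * (q + 2) * (m - 1 + 1) := by
        have : (0 : ℝ) < m - 1 + 1 := by linarith
        apply mul_lt_mul_of_pos_right _ this
        apply mul_lt_mul_of_pos_left _ hs3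
        linarith
      refine lt_of_le_of_lt ?_ h1
      have h2 : √3 * (X + 1) = D + r / 3 + √3 := by rw [mul_add, hXs]; ring
      have : (m : ℝ) = D - r := by rw [hr]; ring
      rw [h2, this]
      exact count_ineq D r (√3) hD hr0 hr1 hs3lo hs3hi

/-- If a unit disc fits then the side is at least `2`. -/
lemma two_le_of_fits {n : ℕ} (hn : 1 ≤ n) {s : ℝ} (h : Fits n s) : 2 ≤ s := by
  obtain ⟨hs, e, c, hc, -⟩ := h
  have h0 := hc ⟨0, hn⟩
  set p : Plane := c ⟨0, hn⟩ with hp
  set p' : Plane := e.symm p with hp'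
  have key : ∀ x : Plane, dist x p' ≤ 1 → x ∈ box s := by
    intro x hx
    have h1 : e x ∈ closedBall p 1 := by
      rw [mem_closedBall]
      have : dist (e x) p = dist x p' := by
        rw [hp', ← e.dist_eq x (e.symm p), e.apply_symm_apply]
      rw [this]; exact hx
    obtain ⟨y, hy, hxy⟩ := h0 h1
    rwa [e.injective hxy] at hy
  have hnorm : ∀ t : ℝ, ‖(EuclideanSpace.single (0 : Fin 2) t : Plane)‖ = |t| := by
    intro t; simp
  have hA := key (p' + EuclideanSpace.single (0 : Fin 2) (1 : ℝ)) (by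
    rw [dist_eq_norm, add_sub_cancel_left, hnorm]; simp) 0
  have hB := key (p' + EuclideanSpace.single (0 : Fin 2) (-1 : ℝ)) (by
    rw [dist_eq_norm, add_sub_cancel_left, hnorm]; simp) 0
  simp at hA hB
  linarith [hA.2, hB.1]

/-- Some side works. -/
lemma exists_fits (n : ℕ) (hn : 1 ≤ n) : ∃ s, Fits n s := by
  have hn1 : (1 : ℝ) ≤ n := by exact_mod_cast hn
  refine ⟨_, fits_main (4 * n + 4) (by positivity) n hn ?_⟩
  have h1 : √12 ≤ 4 := by
    rw [Real.sqrt_le_left (by norm_num)]; norm_num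
  have h2 : √3 ≤ 2 := by
    rw [Real.sqrt_le_left (by norm_num)]; norm_num
  have h3 : √12 * ((n : ℝ) - 1) ≤ 4 * ((n : ℝ) - 1) :=
    mul_le_mul_of_nonneg_right h1 (by linarith)
  nlinarith

lemma two_le_sideMin {n : ℕ} (hn : 1 ≤ n) : 2 ≤ sideMin n :=
  le_csInf (exists_fits n hn) fun _ h => two_le_of_fits hn h

/-- The lower bound for `n` in terms of `s_n`. -/
lemma lower (n : ℕ) (hn : 1 ≤ n) :
    (sideMin n - 2) ^ 2 + 2 / 3 * (sideMin n - 2) + (√3 - 1 / 3) ≤ √12 * n := by
  have h12 : √12 = 2 * √3 := by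
    rw [show (12 : ℝ) = 2 ^ 2 * 3 by norm_num, Real.sqrt_mul (by norm_num),
      Real.sqrt_sq (by norm_num)]
  have hs3 : 0 < √3 := by positivity
  have hn1 : (1 : ℝ) ≤ n := by exact_mod_cast hn
  set E : ℝ := sideMin n - 2 with hE
  have hE0 : 0 ≤ E := by have := two_le_sideMin hn; linarith
  by_contra hcon
  push Not at hcon
  have h1 : √12 * ((n : ℝ) - 1) < E ^ 2 + 2 / 3 * E - (1 / 3 + √3) := by
    have : √12 * ((n : ℝ) - 1) = √12 * n - 2 * √3 := by rw [mul_sub, mul_one, ← h12]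
    rw [this]; linarith
  have hEpos : 0 < E := by
    rcases hE0.lt_or_eq with h | h
    · exact h
    · exfalso
      rw [← h] at h1
      have : 0 ≤ √12 * ((n : ℝ) - 1) := mul_nonneg (by positivity) (by linarith)
      nlinarith
  -- continuity
  have hcont : Continuous fun D : ℝ => D ^ 2 + 2 / 3 * D - (1 / 3 + √3) := by fun_prop
  have hev : ∀ᶠ D in nhds E, √12 * ((n : ℝ) - 1) < D ^ 2 + 2 / 3 * D - (1 / 3 + √3) :=
    hcont.continuousAt.eventually_const_lt h1
  rw [Metric.eventually_nhds_iff] at hev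
  obtain ⟨ε, hε, hball⟩ := hev
  set D : ℝ := max 0 (E - ε / 2) with hDdef
  have hDE : D < E := by rw [hDdef]; exact max_lt hEpos (by linarith)
  have hDb : dist D E < ε := by
    rw [Real.dist_eq, abs_lt]
    have : E - ε / 2 ≤ D := le_max_right _ _
    constructor <;> linarith
  have hfit := fits_main D (le_max_left _ _) n hn (hball hDb).le
  have hle : sideMin n ≤ D + 2 :=
    csInf_le ⟨0, fun s hs => hs.1⟩ hfit
  linarith

/-- **Main theorem.**  For every `n ≥ 1`, with `s_n` the minimal side of a square containing `n`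
nonoverlapping unit discs, `√12 n ≥ (s_n - 2)^2 + (2/3) (s_n - 2) + √3 - 1/3 > F(s_n)`.
Hence `√12 n = F(s_n)` holds for no positive integer `n`. -/
theorem result :
    (∀ n : ℕ, 1 ≤ n →
      (sideMin n - 2) ^ 2 + 2 / 3 * (sideMin n - 2) + (√3 - 1 / 3) ≤ √12 * n ∧
      F (sideMin n) < √12 * n) ∧
    {n : ℕ | 1 ≤ n ∧ √12 * n = F (sideMin n)} = ∅ ∧
    ¬ {n : ℕ | 1 ≤ n ∧ √12 * n = F (sideMin n)}.Infinite := by
  have hs3lo : 1.732 < √3 := by
    apply Real.lt_sqrt_of_sq_lt; norm_num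
  have main : ∀ n : ℕ, 1 ≤ n →
      (sideMin n - 2) ^ 2 + 2 / 3 * (sideMin n - 2) + (√3 - 1 / 3) ≤ √12 * n ∧
      F (sideMin n) < √12 * n := by
    intro n hn
    have h := lower n hn
    refine ⟨h, lt_of_lt_of_le ?_ h⟩
    have h2 := two_le_sideMin hn
    unfold F
    nlinarith [mul_nonneg (sub_nonneg.mpr h2) (by positivity : (0 : ℝ) ≤ √3)]
  have hempty : {n : ℕ | 1 ≤ n ∧ √12 * n = F (sideMin n)} = ∅ := by
    ext n
    simp only [Set.mem_ofPred_eq, Set.mem_empty_iff_false, iff_false, not_and]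
    intro hn heq
    have := (main n hn).2
    linarith
  refine ⟨main, hempty, ?_⟩
  rw [hempty]
  exact Set.not_infinite.mpr Set.finite_empty

end Pool.Agent.Results.MP_77b5a8_co.NoEquality
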